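import Pool.Agent.Helper52.SM.Goals

/-!
# Project SM, packet RSM: the simulation of a restricted thread
-/

set_option autoImplicit false

namespace Pool.Agent.Helper4.SM

open Pool.Agent.Helper52.SM Pool.Agent.Helper78
open scoped Classical

theorem fixa_append (act : PM.View → ℕ) (x : List Bool) (s : List (ℕ × Bool)) (i : ℕ) (M : PM.Mem)
    (a : List Bool) (β : Bool) : fixa act x s i M (a ++ [β]) =
      fixa act x s i M a ++ [ovb s (act (x, i, M, fixa act x s i M a) - 4) β] := by
  unfold fixa
  rw [List.foldl_append]
  rfl

theorem fixa_length (act : PM.View → ℕ) (x : List Bool) (s : List (ℕ × Bool)) (i : ℕ) (M : PM.Mem)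
    (a : List Bool) : (fixa act x s i M a).length = a.length := by
  induction a using List.reverseRecOn with
  | nil => rfl
  | append_singleton a β ih => rw [fixa_append, List.length_append, List.length_append, ih]; rfl

theorem fixm_append (act : PM.View → ℕ) (x : List Bool) (s : List (ℕ × Bool)) (M : PM.Mem)
    (e : ℕ × List Bool) : fixm act x s (M ++ [e]) =
      fixm act x s M ++ [(e.1, fixa act x s e.1 (fixm act x s M) e.2)] := by
  unfold fixm
  rw [List.foldl_append]
  rfl

theorem msize_append (M : PM.Mem) (e : ℕ × List Bool) :
    PM.msize (M ++ [e]) = PM.msize M + e.2.length := by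
  simp [PM.msize]

theorem fixm_msize (act : PM.View → ℕ) (x : List Bool) (s : List (ℕ × Bool)) (M : PM.Mem) :
    PM.msize (fixm act x s M) = PM.msize M := by
  induction M using List.reverseRecOn with
  | nil => rfl
  | append_singleton M e ih => rw [fixm_append, msize_append, msize_append, ih, fixa_length]

theorem bits_length (act : PM.View → ℕ) (x : List Bool) (b : ℕ → Bool) (i : ℕ) (M : PM.Mem)
    (k : ℕ) : (PM.bits act x b i M k).length ≤ k := by
  induction k with
  | zero => simp [PM.bits]
  | succ k ih =>
    simp only [PM.bits]
    split_ifs
    · rw [List.length_append]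
      simp only [List.length_singleton]
      omega
    · omega

/-- A stage which has read fewer than `k` bits in `k` steps has stopped. -/
theorem bits_stop (act : PM.View → ℕ) (x : List Bool) (b : ℕ → Bool) (i : ℕ) (M : PM.Mem)
    (k : ℕ) (h : (PM.bits act x b i M k).length < k) :
    ¬ 4 ≤ act (x, i, M, PM.bits act x b i M k) := by
  induction k with
  | zero => omega
  | succ k ih =>
    by_cases h4 : 4 ≤ act (x, i, M, PM.bits act x b i M k)
    · have e : PM.bits act x b i M (k + 1) = PM.bits act x b i M k ++
          [b (act (x, i, M, PM.bits act x b i M k) - 4)] := by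
        simp only [PM.bits]; rw [if_pos h4]
      rw [e, List.length_append] at h
      exact absurd h4 (ih (by simpa using h))
    · have e : PM.bits act x b i M (k + 1) = PM.bits act x b i M k := by
        simp only [PM.bits]; rw [if_neg h4]
      rw [e]
      exact h4

theorem rsm : RsmStmt := by
  intro act act' c x x' s b hbd hact
  -- the bits
  have hbits : ∀ (i : ℕ) (M : PM.Mem) (k : ℕ), k ≤ PM.bd c x →
      fixa act x s i (fixm act x s M) (PM.bits act' x' b i M k) =
        PM.bits act x (ov s b) i (fixm act x s M) k := by
    intro i M k
    induction k with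
    | zero => intro _; rfl
    | succ k ih =>
      intro hk
      have ih' := ih (by omega)
      have hlen := bits_length act' x' b i M k
      have ha := hact i M (PM.bits act' x' b i M k)
      unfold actR at ha
      rw [ih'] at ha
      simp only [PM.bits]
      by_cases h4 : 4 ≤ act (x, i, fixm act x s M, PM.bits act x (ov s b) i (fixm act x s M) k)
      · rw [if_pos h4, if_pos (by omega)] at ha
        rw [ha, if_pos h4, if_pos h4, fixa_append, ih']
        rfl
      · rw [if_neg h4] at ha
        have h4' : ¬ 4 ≤ act' (x', i, M, PM.bits act' x' b i M k) := by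
          rw [ha]
          split_ifs
          · omega
          · omega
          · exact h4
        rw [if_neg h4, if_neg h4', ih']
  -- the restricted stage has stopped after `bd c x` steps
  have hstop : ∀ (i : ℕ) (M : PM.Mem),
      ¬ 4 ≤ act' (x', i, M, PM.bits act' x' b i M (PM.bd c x)) := by
    intro i M
    by_cases hl : (PM.bits act' x' b i M (PM.bd c x)).length < PM.bd c x
    · exact bits_stop act' x' b i M _ hl
    · rw [hact]
      unfold actR
      split_ifs
      · omega
      · omega
      · omega
      · assumption
  have hconst : ∀ (i : ℕ) (M : PM.Mem) (d : ℕ),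
      PM.bits act' x' b i M (PM.bd c x + d) = PM.bits act' x' b i M (PM.bd c x) := by
    intro i M d
    induction d with
    | zero => rfl
    | succ d ih =>
      rw [← Nat.add_assoc]
      have e : PM.bits act' x' b i M (PM.bd c x + d + 1) =
          if 4 ≤ act' (x', i, M, PM.bits act' x' b i M (PM.bd c x + d)) then
            PM.bits act' x' b i M (PM.bd c x + d) ++
              [b (act' (x', i, M, PM.bits act' x' b i M (PM.bd c x + d)) - 4)]
          else PM.bits act' x' b i M (PM.bd c x + d) := rfl
      rw [e, ih, if_neg (hstop i M)]
  have hK : ∀ (i : ℕ) (M : PM.Mem),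
      PM.bits act' x' b i M (PM.bd c x') = PM.bits act' x' b i M (PM.bd c x) := by
    intro i M
    obtain ⟨d, hd⟩ := Nat.exists_eq_add_of_le hbd
    rw [hd]
    exact hconst i M d
  intro n
  induction n with
  | zero => intro i M; rfl
  | succ n ih =>
    intro i M
    simp only [PM.run]
    rw [hK]
    have hb := hbits i M (PM.bd c x) le_rfl
    have hs := hstop i M
    have hla : (PM.bits act x (ov s b) i (fixm act x s M) (PM.bd c x)).length =
        (PM.bits act' x' b i M (PM.bd c x)).length := by
      rw [← hb, fixa_length]
    have hm := fixm_msize act x s M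
    have ha := hact i M (PM.bits act' x' b i M (PM.bd c x))
    unfold actR at ha
    rw [hb] at ha
    have happ : fixm act x s (M ++ [(i, PM.bits act' x' b i M (PM.bd c x))]) =
        fixm act x s M ++ [(i, PM.bits act x (ov s b) i (fixm act x s M) (PM.bd c x))] := by
      rw [fixm_append, hb]
    have ih1 := ih (i + 1) M
    have ih2 := ih (i + 1) (M ++ [(i, PM.bits act' x' b i M (PM.bd c x))])
    rw [happ] at ih2
    rw [ih1, ih2, hla, hm]
    generalize PM.bits act' x' b i M (PM.bd c x) = a at *
    generalize PM.bits act x (ov s b) i (fixm act x s M) (PM.bd c x) = a' at *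
    generalize act' (x', i, M, a) = v' at *
    generalize act (x, i, fixm act x s M, a') = v at *
    by_cases h4 : 4 ≤ v
    · rw [if_pos h4] at ha
      have hv' : v' = 0 := by
        split_ifs at ha
        · omega
        · exact ha
      subst hv'
      rw [if_neg (by omega), if_neg (by omega), if_neg (by omega), if_neg (by omega),
        if_neg (by omega), if_neg (by omega)]
    · rw [if_neg h4] at ha
      by_cases h3 : v = 3
      · rw [if_pos h3] at ha
        by_cases hsz : PM.msize M + a.length ≤ PM.bd c x
        · rw [if_pos hsz] at ha
          subst ha h3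
          rw [if_neg (by omega), if_neg (by omega), if_pos ⟨rfl, by omega⟩, if_neg (by omega),
            if_neg (by omega), if_pos ⟨rfl, hsz⟩]
        · rw [if_neg hsz] at ha
          subst ha h3
          rw [if_neg (by omega), if_neg (by omega), if_neg (by omega), if_neg (by omega),
            if_neg (by omega), if_neg (by omega)]
      · rw [if_neg h3] at ha
        subst ha
        by_cases h1 : v' = 1
        · rw [if_pos h1, if_pos h1]
        · by_cases h2 : v' = 2
          · rw [if_neg h1, if_neg h1, if_pos h2, if_pos h2]
          · rw [if_neg h1, if_neg h1, if_neg h2, if_neg h2, if_neg (by omega), if_neg (by omega)]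

end Pool.Agent.Helper4.SM
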